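import Pool.Agent.P8H7.BC.GL

/-! Package TP of project EN: a trigonometric majorant of an interval. -/

set_option autoImplicit false

namespace Pool.Agent.P8H53.EN

open Finset MeasureTheory Filter Topology ProbabilityTheory Complex
open Pool.Agent.P8H60.BC (pG)
open Pool.Agent.P8H7.BC (G real_Icc_le G_lip pG_eq tails)

/-- `F` is a trigonometric polynomial -/
def IsTP (F : ℝ → ℂ) : Prop := ∃ (N : ℕ) (c : Fin N → ℂ) (q : Fin N → ℝ),
  ∀ x, F x = ∑ m, c m * cexp (I * ((q m * x : ℝ) : ℂ))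

theorem isTP_add {F F' : ℝ → ℂ} (h : IsTP F) (h' : IsTP F') : IsTP fun x => F x + F' x := by
  obtain ⟨N, c, q, h⟩ := h
  obtain ⟨M, d, r, h'⟩ := h'
  refine ⟨N + M, Fin.append c d, Fin.append q r, fun x => ?_⟩
  show F x + F' x = _
  rw [Fin.sum_univ_add, h x, h' x]
  simp

theorem isTP_smul {F : ℝ → ℂ} (a : ℂ) (h : IsTP F) : IsTP fun x => a * F x := by
  obtain ⟨N, c, q, h⟩ := h
  refine ⟨N, fun m => a * c m, q, fun x => ?_⟩
  simp only [h x, Finset.mul_sum, mul_assoc]

theorem isTP_conj {F : ℝ → ℂ} (h : IsTP F) : IsTP fun x => (starRingEnd ℂ) (F x) := by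
  obtain ⟨N, c, q, h⟩ := h
  refine ⟨N, fun m => (starRingEnd ℂ) (c m), fun m => - q m, fun x => ?_⟩
  show (starRingEnd ℂ) (F x) = _
  rw [h x, map_sum]
  refine Finset.sum_congr rfl fun m _ => ?_
  rw [map_mul, ← Complex.exp_conj, map_mul, Complex.conj_I, Complex.conj_ofReal]
  congr 2
  push_cast
  ring

theorem isTP_const (a : ℂ) : IsTP fun _ => a :=
  ⟨1, fun _ => a, fun _ => 0, fun x => by simp⟩

theorem isTP_zero : IsTP fun _ => 0 := isTP_const 0

theorem isTP_fourier (T : ℝ) (n : ℤ) : IsTP fun x : ℝ => fourier n (x : AddCircle T) := by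
  refine ⟨1, fun _ => 1, fun _ => 2 * Real.pi * n / T, fun x => ?_⟩
  show fourier n (x : AddCircle T) = _
  rw [fourier_coe_apply]
  simp only [Finset.univ_unique, Finset.sum_singleton, one_mul]
  congr 1
  push_cast
  ring

theorem isTP_span {T : ℝ} [Fact (0 < T)] (P : C(AddCircle T, ℂ))
    (hP : P ∈ Submodule.span ℂ (Set.range <| @fourier T)) :
    IsTP fun x : ℝ => P (x : AddCircle T) := by
  induction hP using Submodule.span_induction with
  | mem x hx =>
    obtain ⟨n, rfl⟩ := hx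
    exact isTP_fourier T n
  | zero => exact isTP_zero
  | add x y _ _ hx hy => exact isTP_add hx hy
  | smul a x _ hx => exact isTP_smul a hx

theorem isTP_re {F : ℝ → ℂ} (h : IsTP F) : IsTP fun x => (((F x).re : ℝ) : ℂ) := by
  have h1 := isTP_smul (1 / 2) (isTP_add h (isTP_conj h))
  refine (congrArg IsTP (funext fun x => ?_)).mp h1
  rw [Complex.add_conj]
  push_cast
  ring

/-- the periodic trapezoid -/
noncomputable def hat (T a b : ℝ) : C(AddCircle T, ℝ) where
  toFun y := max 0 (min 1 ((b - ‖y‖) / (b - a)))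
  continuous_toFun := by fun_prop

theorem hat_nonneg (T a b : ℝ) (y : AddCircle T) : 0 ≤ hat T a b y := le_max_left _ _

theorem hat_le_one (T a b : ℝ) (y : AddCircle T) : hat T a b y ≤ 1 :=
  max_le zero_le_one (min_le_left _ _)

theorem hat_one (T a b : ℝ) (hab : a < b) (y : AddCircle T) (hy : ‖y‖ ≤ a) : 1 ≤ hat T a b y := by
  refine le_max_of_le_right (le_min le_rfl ?_)
  rw [le_div_iff₀ (by linarith)]
  linarith

theorem hat_zero (T a b : ℝ) (hab : a < b) (y : AddCircle T) (hy : b < ‖y‖) : hat T a b y = 0 := by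
  refine le_antisymm (max_le le_rfl ((min_le_right _ _).trans ?_)) (hat_nonneg _ _ _ _)
  exact div_nonpos_of_nonpos_of_nonneg (by linarith) (by linarith)

/-- the trigonometric polynomial -/
theorem exists_f (δ' δ'' R ε : ℝ) (h1 : 0 < δ') (h2 : δ' < δ'') (h3 : δ'' < R) (hε : 0 < ε) :
    ∃ f : ℝ → ℝ, (IsTP fun x => (f x : ℂ)) ∧ (∀ x, 0 ≤ f x) ∧ (∀ x, |x| ≤ δ' → 1 ≤ f x) ∧
      ∀ x, f x ≤ hat (2 * R) δ' δ'' (x : AddCircle (2 * R)) + 2 * ε := by
  have hR : 0 < 2 * R := by linarith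
  have : Fact (0 < 2 * R) := ⟨hR⟩
  let H : C(AddCircle (2 * R), ℂ) :=
    ⟨fun y => (hat (2 * R) δ' δ'' y : ℂ), by fun_prop⟩
  have hH : H ∈ (Submodule.span ℂ (Set.range <| @fourier (2 * R))).topologicalClosure := by
    rw [span_fourier_closure_eq_top]
    exact Submodule.mem_top
  have hH' : H ∈ closure ((Submodule.span ℂ (Set.range <| @fourier (2 * R)) :
      Submodule ℂ C(AddCircle (2 * R), ℂ)) : Set C(AddCircle (2 * R), ℂ)) := hH
  obtain ⟨P, hP, hd⟩ := Metric.mem_closure_iff.1 hH' ε hε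
  have hb : ∀ x : ℝ, |(P (x : AddCircle (2 * R))).re - hat (2 * R) δ' δ'' (x : AddCircle (2 * R))| ≤
      ε := by
    intro x
    have h4 : ‖(P - H) (x : AddCircle (2 * R))‖ ≤ ε := by
      refine (ContinuousMap.norm_coe_le_norm (P - H) _).trans ?_
      rw [dist_comm, dist_eq_norm] at hd
      exact hd.le
    have h5 := Complex.abs_re_le_norm ((P - H) (x : AddCircle (2 * R)))
    rw [ContinuousMap.sub_apply, Complex.sub_re] at h5
    rw [ContinuousMap.sub_apply] at h4
    have h6 : (H (x : AddCircle (2 * R))).re = hat (2 * R) δ' δ'' (x : AddCircle (2 * R)) :=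
      Complex.ofReal_re _
    rw [h6] at h5
    exact h5.trans h4
  refine ⟨fun x => (P (x : AddCircle (2 * R))).re + ε, ?_, ?_, ?_, ?_⟩
  · have h4 := isTP_add (isTP_re (isTP_span P hP)) (isTP_const (ε : ℂ))
    refine (congrArg IsTP (funext fun x => ?_)).mp h4
    push_cast
    rfl
  · intro x
    have h4 := (abs_le.1 (hb x)).1
    have h5 := hat_nonneg (2 * R) δ' δ'' (x : AddCircle (2 * R))
    show 0 ≤ (P (x : AddCircle (2 * R))).re + ε
    linarith
  · intro x hx
    have h4 := (abs_le.1 (hb x)).1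
    have h6 : ‖(x : AddCircle (2 * R))‖ ≤ δ' := by
      have h7 : ‖(x : AddCircle (2 * R))‖ = |x| := by
        rw [AddCircle.norm_coe_eq_abs_iff _ hR.ne', abs_of_pos hR]
        linarith
      rw [h7]
      exact hx
    have h5 := hat_one (2 * R) δ' δ'' h2 (x : AddCircle (2 * R)) h6
    show 1 ≤ (P (x : AddCircle (2 * R))).re + ε
    linarith
  · intro x
    have h4 := (abs_le.1 (hb x)).2
    show (P (x : AddCircle (2 * R))).re + ε ≤ _
    linarith

/-- the mean value of a character -/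
theorem mean_exp (σ q x : ℝ) : (∫ z, cexp (I * ((q * (x + σ * z) : ℝ) : ℂ)) ∂(gaussianReal 0 1)) =
    ((Real.exp (-(σ ^ 2 * q ^ 2) / 2) : ℝ) : ℂ) * cexp (I * ((q * x : ℝ) : ℂ)) := by
  have h1 : (fun z : ℝ => cexp (I * ((q * (x + σ * z) : ℝ) : ℂ))) =
      fun z : ℝ => cexp (I * ((q * x : ℝ) : ℂ)) * cexp (((q * σ : ℝ) : ℂ) * (z : ℂ) * I) := by
    funext z
    rw [← Complex.exp_add]
    congr 1
    push_cast
    ring
  rw [h1, MeasureTheory.integral_const_mul, ← charFun_apply_real, charFun_gaussianReal, mul_comm]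
  congr 1
  push_cast
  congr 1
  ring

theorem set_bound (δ'' R σ : ℝ) (h2 : 0 < δ'') (h3 : δ'' < R) (hσ : 0 < σ) (hσ1 : σ < 1) (x : ℝ) :
    ∃ a : ℝ, {z : ℝ | ‖((x + σ * z : ℝ) : AddCircle (2 * R))‖ ≤ δ''} ⊆
      Set.Icc (a - δ'' / σ) (a + δ'' / σ) ∪ (Set.Iic (-(R - δ'')) ∪ Set.Ici (R - δ'')) := by
  have hR : 0 < 2 * R := by linarith
  have hRn : (2 * R) ≠ 0 := hR.ne'
  set n : ℤ := round ((2 * R)⁻¹ * x) with hn
  have hx : |x - n * (2 * R)| ≤ R := by
    have h4 := abs_sub_round ((2 * R)⁻¹ * x)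
    rw [← hn] at h4
    have h5 : x - n * (2 * R) = (2 * R) * ((2 * R)⁻¹ * x - n) := by
      rw [mul_sub, mul_inv_cancel_left₀ hRn, mul_comm (n : ℝ)]
    rw [h5, abs_mul, abs_of_pos hR]
    nlinarith
  refine ⟨-(x - n * (2 * R)) / σ, fun z hz => ?_⟩
  rw [Set.mem_ofPred_eq, AddCircle.norm_eq] at hz
  set k : ℤ := round ((2 * R)⁻¹ * (x + σ * z)) with hk
  obtain ⟨hz1, hz2⟩ := abs_le.1 hz
  obtain ⟨hx1, hx2⟩ := abs_le.1 hx
  rcases lt_trichotomy k n with h | h | h
  · right; left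
    have h5 : (k : ℝ) + 1 ≤ n := by exact_mod_cast h
    rw [Set.mem_Iic]
    have h6 : σ * z ≤ -(R - δ'') := by nlinarith
    have h7 : z < 0 := by
      by_contra h8
      push Not at h8
      nlinarith [mul_nonneg hσ.le h8]
    nlinarith
  · left
    rw [h] at hz1 hz2
    constructor
    · rw [← sub_div, div_le_iff₀ hσ]
      linarith
    · rw [← add_div, le_div_iff₀ hσ]
      linarith
  · right; right
    have h5 : (n : ℝ) + 1 ≤ k := by exact_mod_cast h
    rw [Set.mem_Ici]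
    have h6 : R - δ'' ≤ σ * z := by nlinarith
    have h7 : 0 < z := by
      by_contra h8
      push Not at h8
      nlinarith [mul_nonneg hσ.le (neg_nonneg.2 h8)]
    nlinarith

theorem tp : ∀ δ ε : ℝ, 0 < δ → 0 < ε → ∃ (δ' σ : ℝ) (N : ℕ) (c : Fin N → ℂ) (q : Fin N → ℝ)
  (f g : ℝ → ℝ), δ < δ' ∧ 0 < σ ∧ σ < 1 ∧
  (∀ x, (f x : ℂ) = ∑ m, c m * cexp (I * ((q m * x : ℝ) : ℂ))) ∧
  (∀ x, (g x : ℂ) = ∑ m, c m * ((Real.exp (-(σ ^ 2 * q m ^ 2) / 2) : ℝ) : ℂ) *
    cexp (I * ((q m * x : ℝ) : ℂ))) ∧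
  (∀ x, 0 ≤ f x) ∧ (∀ x, |x| ≤ δ' → 1 ≤ f x) ∧ (∀ x, 0 ≤ g x) ∧ ∀ x, g x ≤ pG δ + ε := by
  intro δ ε hδ hε
  obtain ⟨R₀, hR₀⟩ := tails (ε / 8) (by linarith)
  set t : ℝ := ε / 8 with ht
  have htp : 0 < t := by rw [ht]; linarith
  set δ' : ℝ := δ + t / 4 with hδ'
  set δ'' : ℝ := δ + t / 2 with hδ''
  set σ : ℝ := δ'' / (δ + t) with hσd
  have hσ : 0 < σ := div_pos (by linarith) (by linarith)
  have hσ1 : σ < 1 := by
    rw [hσd, div_lt_one (by linarith)]
    linarith
  have hl : δ'' / σ = δ + t := by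
    have h1 : δ'' ≠ 0 := by
      have : 0 < δ'' := by linarith
      exact this.ne'
    have h2 : δ + t ≠ 0 := by linarith
    rw [hσd, div_div_eq_mul_div, mul_comm, mul_div_assoc, div_self h1, mul_one]
  set R : ℝ := δ'' + max R₀ 1 with hRd
  have hR1 : δ'' < R := by
    have := le_max_right R₀ 1
    linarith
  have hR2 : R₀ ≤ R - δ'' := by
    have := le_max_left R₀ 1
    linarith
  obtain ⟨f, ⟨N, c, q, hf⟩, hf0, hf1, hfh⟩ :=
    exists_f δ' δ'' R (ε / 8) (by linarith) (by linarith) hR1 (by linarith)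
  have hfc : Continuous f := by
    have h1 : Continuous fun x => (f x : ℂ) := by
      have h2 : (fun x => (f x : ℂ)) = fun x => ∑ m, c m * cexp (I * ((q m * x : ℝ) : ℂ)) :=
        funext hf
      rw [h2]
      fun_prop
    exact (Complex.continuous_re.comp h1)
  have hint : ∀ x, Integrable (fun z => f (x + σ * z)) (gaussianReal 0 1) := by
    intro x
    refine Integrable.mono' (integrable_const (1 + 2 * (ε / 8))) ?_ ?_
    · exact (hfc.comp (by fun_prop)).aestronglyMeasurable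
    · refine Filter.Eventually.of_forall fun z => ?_
      rw [Real.norm_of_nonneg (hf0 _)]
      have h1 := hfh (x + σ * z)
      have h2 := hat_le_one (2 * R) δ' δ'' ((x + σ * z : ℝ) : AddCircle (2 * R))
      linarith
  refine ⟨δ', σ, N, c, q, f, fun x => ∫ z, f (x + σ * z) ∂(gaussianReal 0 1), by linarith, hσ, hσ1,
    hf, ?_, hf0, hf1, ?_, ?_⟩
  · intro x
    rw [← integral_complex_ofReal]
    simp only [hf]
    rw [integral_finsetSum]
    · refine Finset.sum_congr rfl fun m _ => ?_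
      rw [MeasureTheory.integral_const_mul, mean_exp, mul_assoc]
    · intro m _
      refine Integrable.const_mul ?_ _
      refine Integrable.mono' (integrable_const (1 : ℝ)) ?_ ?_
      · exact (by fun_prop : Continuous fun z : ℝ =>
          cexp (I * ((q m * (x + σ * z) : ℝ) : ℂ))).aestronglyMeasurable
      · refine Filter.Eventually.of_forall fun z => ?_
        rw [mul_comm, Complex.norm_exp_ofReal_mul_I]
  · intro x
    exact integral_nonneg fun z => hf0 _
  · intro x
    obtain ⟨a, ha⟩ := set_bound δ'' R σ (by linarith) hR1 hσ hσ1 x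
    set A : Set ℝ := Set.Icc (a - δ'' / σ) (a + δ'' / σ) ∪
      (Set.Iic (-(R - δ'')) ∪ Set.Ici (R - δ'')) with hA
    have hAm : MeasurableSet A :=
      measurableSet_Icc.union (measurableSet_Iic.union measurableSet_Ici)
    have h1 : (∫ z, f (x + σ * z) ∂(gaussianReal 0 1)) ≤
        ∫ z, (A.indicator (fun _ => (1:ℝ)) z + 2 * (ε / 8)) ∂(gaussianReal 0 1) := by
      refine integral_mono (hint x) ?_ fun z => ?_
      · exact ((integrable_const (1:ℝ)).indicator hAm).add (integrable_const _)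
      · have h2 := hfh (x + σ * z)
        show f (x + σ * z) ≤ A.indicator (fun _ => (1:ℝ)) z + 2 * (ε / 8)
        by_cases hz : z ∈ A
        · rw [Set.indicator_of_mem hz]
          have h3 := hat_le_one (2 * R) δ' δ'' ((x + σ * z : ℝ) : AddCircle (2 * R))
          linarith
        · rw [Set.indicator_of_notMem hz]
          have h4 : δ'' < ‖((x + σ * z : ℝ) : AddCircle (2 * R))‖ := by
            by_contra h5
            push Not at h5
            exact hz (ha h5)
          have h3 := hat_zero (2 * R) δ' δ'' (by linarith) _ h4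
          linarith
    have h5 : (∫ z, (A.indicator (fun _ => (1:ℝ)) z + 2 * (ε / 8)) ∂(gaussianReal 0 1)) =
        (gaussianReal 0 1).real A + 2 * (ε / 8) := by
      rw [integral_add ((integrable_const (1:ℝ)).indicator hAm) (integrable_const _),
        integral_indicator_const _ hAm]
      simp
    have h6 : (gaussianReal 0 1).real A ≤ G (δ'' / σ) 0 + (ε / 8 + ε / 8) := by
      refine (measureReal_union_le _ _).trans (add_le_add ?_ ?_)
      · exact real_Icc_le _ _ (div_pos (by linarith) hσ).le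
      · refine (measureReal_union_le _ _).trans (add_le_add ?_ ?_)
        · exact (hR₀ _ hR2).1
        · exact (hR₀ _ hR2).2
    have h7 : G (δ'' / σ) 0 ≤ pG δ + 2 * (ε / 8) := by
      rw [hl, pG_eq δ hδ.le]
      exact G_lip δ t htp.le
    show (∫ z, f (x + σ * z) ∂(gaussianReal 0 1)) ≤ _
    rw [h5] at h1
    linarith

end Pool.Agent.P8H53.EN
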