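import Pool.Agent.P8H60.EN.Stm
import Pool.Agent.P8H53.EN.TpD

/-! Package TP of project EN. -/

namespace Pool.Agent.P8H53.EN

theorem t_TP : Pool.Agent.P8H60.EN.S_TP := tp

end Pool.Agent.P8H53.EN
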